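import Pool.Agent.N929.EX.Stm
import Pool.Agent.H976R2.KFew

/-!
# Exponentially few walks have few bumps in a window of times
-/

set_option autoImplicit false
set_option linter.unusedVariables false

namespace Pool.Agent.N348.EX

open Pool.Agent.N929.EX
open Pool.Agent.H976R2 Finset
open Pool.Agent.H976R2.Dir
open scoped Classical

noncomputable section

lemma saw_mid {u v x : List Dir} (h : Saw (u ++ v ++ x)) : Saw v := by
  intro a b c habc hb
  exact h (u ++ a) b (c ++ x) (by rw [habc]; simp) hb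

lemma saw_left {u v : List Dir} (h : Saw (u ++ v)) : Saw u := by
  intro a b c habc hb
  exact h a b (c ++ v) (by rw [habc]; simp) hb

lemma saw_right {u v : List Dir} (h : Saw (u ++ v)) : Saw v := by
  intro a b c habc hb
  exact h (u ++ a) b c (by rw [habc]; simp) hb

lemma split_word (w : List Dir) (a l : ℕ) : w = w.take a ++ (w.drop a).take l ++ w.drop (a + l) := by
  rw [List.append_assoc, ← List.drop_drop, List.take_append_drop, List.take_append_drop]

lemma bc_mid_le {a r : ℕ} {w : List Dir} (h : a + r ≤ w.length) :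
    bc ((w.drop a).take (w.length - a - r)) ≤ BW a r w := by
  unfold bc BW
  refine Finset.card_le_card_of_injOn (fun j => a + j) ?_ ?_
  · intro j hj
    rw [mem_coe] at hj
    obtain ⟨h1, h2, h3⟩ := H976R2.mem_bumps.mp hj
    have hl : ((w.drop a).take (w.length - a - r)).length = w.length - a - r := by
      rw [List.length_take, List.length_drop]; omega
    rw [hl] at h1
    have e : ∀ i, i < w.length - a - r → lt ((w.drop a).take (w.length - a - r)) i = lt w (a + i) := by
      intro i hi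
      unfold lt
      rw [List.getD_eq_getElem?_getD, List.getD_eq_getElem?_getD, List.getElem?_take_of_lt hi,
        List.getElem?_drop]
    rw [e _ h1, e _ (by omega)] at h2
    rw [e _ (by omega), e _ (by omega)] at h3
    simp only [mem_coe]
    rw [mem_filter, H976R2.mem_bumps]
    refine ⟨⟨by omega, ?_, ?_⟩, by omega, by omega⟩
    · rw [show a + j + 2 = a + (j + 2) by ring]; exact h2
    · rw [show a + j + 1 = a + (j + 1) by ring]; exact h3
  · intro j _ j' _ h
    simpa using h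

/-- words with few bumps in the window -/
def fewW (a r n : ℕ) : Finset (List Dir) :=
  (SW n).filter (fun w => (BW a r w : ℝ) < ((n : ℝ) - a - r) / 2000)

lemma fewW_card {a r n : ℕ} (h : a + r ≤ n) :
    (fewW a r n).card ≤ (SW a).card * ((few (n - a - r)).card * (SW r).card) := by
  rw [← Finset.card_product, ← Finset.card_product]
  refine Finset.card_le_card_of_injOn
    (fun w => (w.take a, (w.drop a).take (n - a - r), w.drop (a + (n - a - r)))) ?_ ?_
  · intro w hw
    rw [mem_coe] at hw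
    unfold fewW at hw
    rw [mem_filter] at hw
    obtain ⟨hw, hf⟩ := hw
    obtain ⟨hl, hs⟩ := mem_SW.mp hw
    have hsp := split_word w a (n - a - r)
    rw [hsp] at hs
    rw [mem_coe, mem_product, mem_product]
    refine ⟨mem_SW.mpr ⟨?_, saw_left (saw_left hs)⟩, ?_, mem_SW.mpr ⟨?_, saw_right hs⟩⟩
    · rw [List.length_take]; omega
    · unfold few
      rw [mem_filter]
      refine ⟨mem_SW.mpr ⟨?_, saw_mid hs⟩, ?_⟩
      · rw [List.length_take, List.length_drop]; omega
      · have h1 := bc_mid_le (a := a) (r := r) (w := w) (by omega)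
        rw [hl] at h1
        have h2 : ((n - a - r : ℕ) : ℝ) = (n : ℝ) - a - r := by
          rw [Nat.cast_sub (by omega), Nat.cast_sub (by omega)]
        rw [h2]
        refine lt_of_le_of_lt ?_ hf
        exact_mod_cast h1
    · rw [List.length_drop]; omega
  · intro w _ w' _ h
    simp only [Prod.mk.injEq] at h
    rw [split_word w a (n - a - r), split_word w' a (n - a - r), h.1, h.2.1, h.2.2]

/-- FEW follows from UP -/
theorem few_of_up (hup : S_UP) : S_FEW := by
  obtain ⟨C, hC, h1⟩ := Few.few_card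
  obtain ⟨μ, K, hmu, hK, hlow, h2⟩ := hup
  refine ⟨20000 * K + 1, 16 * C, by positivity, by positivity, fun a r n hn hL => ?_⟩
  have hn' : (2 : ℝ) ≤ n := by exact_mod_cast hn
  have hmu0 : 0 < μ := by linarith
  have hlogn : 0 < Real.log (n : ℝ) := Real.log_pos (by linarith)
  have hLpos : 0 < (n : ℝ) - a - r := lt_of_lt_of_le (by positivity) hL
  have har : a + r ≤ n := by
    have : (a : ℝ) + r < n := by linarith
    have : a + r < n := by exact_mod_cast this
    omega
  obtain ⟨l, hl⟩ : ∃ l : ℕ, l = n - a - r := ⟨_, rfl⟩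
  have hlL : (l : ℝ) = (n : ℝ) - a - r := by
    rw [hl]
    rw [Nat.cast_sub (by omega), Nat.cast_sub (by omega)]
  have hnal : n = a + l + r := by omega
  have g1 := fewW_card (a := a) (r := r) (n := n) (by omega)
  rw [← hl] at g1
  have g2 : ((fewW a r n).card : ℝ) ≤
      ((SW a).card : ℝ) * (((few l).card : ℝ) * ((SW r).card : ℝ)) := by exact_mod_cast g1
  have ga := h2 a n (by omega) (by omega)
  have gr := h2 r n (by omega) (by omega)
  have gf := h1 l
  have gn : μ ^ n ≤ ((SW n).card : ℝ) := hlow n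
  obtain ⟨E, hE⟩ : ∃ E : ℝ, E = Real.exp (K * Real.log (n : ℝ) ^ 2) := ⟨_, rfl⟩
  have hEp : 0 < E := by rw [hE]; exact Real.exp_pos _
  have hq : (2.428 : ℝ) ^ l ≤ μ ^ l * Real.exp (-(0.0008 * l)) := by
    have h3 : (2.428 : ℝ) ≤ μ * Real.exp (-0.0008) := by
      have h4 := Real.add_one_le_exp (-0.0008 : ℝ)
      have h5 : (2.428 : ℝ) ≤ 2.43 * (-0.0008 + 1) := by norm_num
      have h6 : (0 : ℝ) ≤ -0.0008 + 1 := by norm_num
      calc (2.428 : ℝ) ≤ 2.43 * (-0.0008 + 1) := h5
        _ ≤ μ * Real.exp (-0.0008) := by gcongr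
    calc (2.428 : ℝ) ^ l ≤ (μ * Real.exp (-0.0008)) ^ l :=
          pow_le_pow_left₀ (by norm_num) h3 l
      _ = μ ^ l * Real.exp (-(0.0008 * l)) := by
          rw [mul_pow, ← Real.exp_nat_mul]; ring_nf
  have hsmall : E * E * Real.exp (-(0.0008 * l)) ≤ Real.exp (-(l / 2500)) := by
    have h3 : E * E = Real.exp (2 * (K * Real.log n ^ 2)) := by
      rw [hE, ← Real.exp_add]; ring_nf
    rw [h3, ← Real.exp_add]
    apply Real.exp_le_exp.mpr
    have h4 : 2 * (K * Real.log n ^ 2) ≤ 0.0004 * l := by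
      rw [hlL]
      have : 0 ≤ K * Real.log n ^ 2 := by positivity
      nlinarith
    linarith
  obtain ⟨Q, hQ⟩ : ∃ Q : ℝ, Q = (2.428 : ℝ) ^ l := ⟨_, rfl⟩
  have hQ0 : 0 ≤ Q := by rw [hQ]; positivity
  rw [← hQ] at hq gf
  obtain ⟨x, hx⟩ : ∃ x : ℝ, x = ((fewW a r n).card : ℝ) := ⟨_, rfl⟩
  obtain ⟨y, hy⟩ : ∃ y : ℝ, y = ((SW n).card : ℝ) := ⟨_, rfl⟩
  obtain ⟨xa, hxa⟩ : ∃ y : ℝ, y = ((SW a).card : ℝ) := ⟨_, rfl⟩
  obtain ⟨xr, hxr⟩ : ∃ y : ℝ, y = ((SW r).card : ℝ) := ⟨_, rfl⟩
  obtain ⟨xf, hxf⟩ : ∃ y : ℝ, y = ((few l).card : ℝ) := ⟨_, rfl⟩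
  have hy0 : 0 ≤ y := by rw [hy]; exact Nat.cast_nonneg _
  have hxa0 : 0 ≤ xa := by rw [hxa]; exact Nat.cast_nonneg _
  have hxr0 : 0 ≤ xr := by rw [hxr]; exact Nat.cast_nonneg _
  have hxf0 : 0 ≤ xf := by rw [hxf]; exact Nat.cast_nonneg _
  obtain ⟨X, hX⟩ : ∃ X : ℝ, X = Real.exp (-(0.0008 * l)) := ⟨_, rfl⟩
  obtain ⟨Y, hY⟩ : ∃ Y : ℝ, Y = Real.exp (-((l : ℝ) / 2500)) := ⟨_, rfl⟩
  have hX0 : 0 < X := by rw [hX]; exact Real.exp_pos _
  have hY0 : 0 < Y := by rw [hY]; exact Real.exp_pos _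
  rw [← hx, ← hxa, ← hxr, ← hxf] at g2
  rw [← hxa, ← hE] at ga
  rw [← hxr, ← hE] at gr
  rw [← hxf] at gf
  rw [← hy] at gn
  rw [← hX] at hq
  rw [← hX, ← hY] at hsmall
  change ((fewW a r n).card : ℝ) ≤ _
  rw [← hx, ← hy, ← hlL, ← hY]
  clear hE hx hy hxa hxr hxf hX hL h2 hlow hY
  calc x ≤ (4 * (μ ^ a * E)) * ((C * Q) * (4 * (μ ^ r * E))) := by
        refine g2.trans ?_
        gcongr
    _ = 16 * C * (μ ^ a * μ ^ r) * (E * E) * Q := by
        ring
    _ ≤ 16 * C * (μ ^ a * μ ^ r) * (E * E) * (μ ^ l * X) := by gcongr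
    _ = 16 * C * μ ^ n * (E * E * X) := by
        rw [hnal, pow_add, pow_add]; ring
    _ ≤ 16 * C * y * Y := by gcongr
    _ = 16 * C * Y * y := by ring

end

end Pool.Agent.N348.EX
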