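import Pool.Agent.N929.EX.Stm
import Pool.Agent.R956.L2

/-!
# Known bounds for the numbers of self-avoiding walks
-/

set_option autoImplicit false
set_option linter.unusedVariables false

namespace Pool.Agent.N348.EX

open Pool.Agent.N929.EX
open Pool.Agent.H976R2 Finset

theorem up : S_UP := by
  obtain ⟨K, hK, h⟩ := Pool.Agent.R956.card_SW_upper
  refine ⟨H981.mu, K, Pool.Agent.H739K.BNDx.mu_ge, hK, fun n => ?_, h⟩
  rw [Pool.Agent.H739K.SWR.card_eq_cr']
  exact H981.mu_pow_le n

end Pool.Agent.N348.EX
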